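import Pool.Agent.H51.SR.COMP

/-!
Module LOW of the board sr_modules (MP_04ff0f_nt).
-/

set_option autoImplicit false

open Finset

namespace Pool.Agent.H86.SR

open Pool.Agent.H46.SQ

theorem RR_nonneg (n : ℕ) : 0 ≤ RR n := by
  rcases Nat.eq_zero_or_pos n with rfl | hn
  · simp [RR]
  rw [← Pool.Agent.H51.SR.zchi_apply]
  have hm : ((ArithmeticFunction.zeta : ArithmeticFunction ℝ) *
      Pool.Agent.H51.SR.chiA).IsMultiplicative :=
    (ArithmeticFunction.isMultiplicative_zeta.natCast).mul Pool.Agent.H51.SR.chiA_mult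
  rw [hm.multiplicative_factorization _ hn.ne']
  apply Finset.prod_nonneg
  intro p hp
  have hpp : p.Prime := Nat.prime_of_mem_primeFactors (by simpa using hp)
  simp only
  rw [Pool.Agent.H51.SR.zchi_apply, Pool.Agent.H51.SR.RR_prime_pow hpp]
  have h3 : ∀ k : ℕ, (0 : ℝ) ≤ ∑ i ∈ Finset.range (k + 1), ((ZMod.χ₈ (p : ZMod 8) : ℝ)) ^ i := by
    intro k
    rw [ZMod.χ₈_nat_eq_if_mod_eight]
    split_ifs
    · simp only [Int.cast_zero]
      apply Finset.sum_nonneg
      intro i _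
      positivity
    · simp only [Int.cast_one, one_pow]
      apply Finset.sum_nonneg
      intro i _
      positivity
    · push_cast
      rw [neg_one_geom_sum]
      split_ifs <;> norm_num
  exact h3 _

theorem sr_LOW (hCHAR : T_CHAR) (hCOMP : T_COMP) : T_LOW := by
  intro z
  set H : ℝ := ∑ a ∈ Finset.Icc 1 z, 1 / (a : ℝ) with hH
  have hHlog : Real.log (z + 1) ≤ H := by
    have h := log_add_one_le_harmonic z
    have h2 : ((harmonic z : ℚ) : ℝ) = H := by
      rw [hH, harmonic_eq_sum_Icc]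
      push_cast
      apply Finset.sum_congr rfl
      intro i _
      simp
    rw [h2] at h
    exact_mod_cast h
  have hlog0 : 0 ≤ Real.log (z + 1) := Real.log_nonneg (by
    have : (0 : ℝ) ≤ z := Nat.cast_nonneg z
    linarith)
  have h1 := hCHAR z
  rw [← hH] at h1
  have h2 := hCOMP (z * z)
  -- the double sum
  have h3 : H * ∑ n ∈ Finset.Icc 1 z, RR n / n ≤
      ∑ n ∈ Finset.Icc 1 (z * z), (∑ d ∈ n.divisors, RR d) / n := by
    have e1 : ∑ n ∈ Finset.Icc 1 (z * z), (∑ d ∈ n.divisors, RR d) / (n : ℝ) =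
        ∑ x ∈ (Finset.Icc 1 (z * z)).sigma (fun n => n.divisors), RR x.2 / (x.1 : ℝ) := by
      rw [Finset.sum_sigma]
      apply Finset.sum_congr rfl
      intro n _
      rw [Finset.sum_div]
    rw [e1]
    have e2 : H * ∑ n ∈ Finset.Icc 1 z, RR n / n =
        ∑ x ∈ (Finset.Icc 1 z) ×ˢ (Finset.Icc 1 z),
          RR x.2 / ((x.1 * x.2 : ℕ) : ℝ) := by
      rw [hH, Finset.sum_mul_sum, Finset.sum_product]
      apply Finset.sum_congr rfl
      intro a _
      apply Finset.sum_congr rfl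
      intro b _
      push_cast
      rw [div_mul_div_comm, one_mul]
    rw [e2]
    have e3 : ∑ x ∈ (Finset.Icc 1 z) ×ˢ (Finset.Icc 1 z),
          RR x.2 / ((x.1 * x.2 : ℕ) : ℝ) =
        ∑ y ∈ ((Finset.Icc 1 z) ×ˢ (Finset.Icc 1 z)).image
          (fun x : ℕ × ℕ => (⟨x.1 * x.2, x.2⟩ : Σ _ : ℕ, ℕ)), RR y.2 / (y.1 : ℝ) := by
      rw [Finset.sum_image]
      rintro ⟨a, b⟩ hab ⟨a', b'⟩ hab' h
      simp only [Finset.coe_product, Finset.coe_Icc, Set.mem_prod, Set.mem_Icc] at hab hab'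
      simp only [Sigma.mk.injEq, heq_eq_eq] at h
      obtain ⟨h1, h2⟩ := h
      subst h2
      have : a = a' := Nat.eq_of_mul_eq_mul_right (by omega) h1
      rw [this]
    rw [e3]
    apply Finset.sum_le_sum_of_subset_of_nonneg
    · intro y hy
      simp only [Finset.mem_image, Finset.mem_product, Finset.mem_Icc, Prod.exists] at hy
      obtain ⟨a, b, ⟨⟨ha1, ha2⟩, hb1, hb2⟩, rfl⟩ := hy
      simp only [Finset.mem_sigma, Finset.mem_Icc, Nat.mem_divisors]
      have hab : 0 < a * b := Nat.mul_pos (by omega) (by omega)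
      exact ⟨⟨hab, Nat.mul_le_mul ha2 hb2⟩, Dvd.intro_left a rfl, hab.ne'⟩
    · intro y _ _
      exact div_nonneg (RR_nonneg _) (Nat.cast_nonneg _)
  have hH0 : 0 ≤ H := le_trans hlog0 hHlog
  have h4 : H * ((7 / 15 : ℝ) * H) ≤ H * ∑ n ∈ Finset.Icc 1 z, RR n / n :=
    mul_le_mul_of_nonneg_left h1 hH0
  have h5 : (Real.log (z + 1)) ^ 2 ≤ H ^ 2 := pow_le_pow_left₀ hlog0 hHlog 2
  nlinarith [h2, h3, h4, h5]

end Pool.Agent.H86.SR
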